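import Pool.Agent.Helper4.AP.Lin

/-!
# Powers of the Beurling-Ahlfors transform: averages over the disc automorphisms (MP_3dd6d4_an)
-/

set_option autoImplicit false

open MeasureTheory Complex FourierTransform Filter Topology
open scoped ENNReal NNReal ComplexConjugate

noncomputable section

namespace Pool.Agent.Helper4.AP

open Helper72.BA

/-- mean value property -/
theorem mv {f : ℂ → ℂ} (hf : DifferentiableOn ℂ f (Metric.closedBall 0 1)) :
    Real.circleAverage f 0 1 = f 0 := by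
  have h : DiffContOnCl ℂ f (Metric.ball 0 |1|) := by
    apply DifferentiableOn.diffContOnCl
    rw [abs_one, closure_ball _ one_ne_zero]
    exact hf
  exact h.circleAverage

theorem conj_inv {w : ℂ} (hw : ‖w‖ = 1) : conj w = w⁻¹ := by
  rw [Complex.inv_def, Complex.normSq_eq_norm_sq, hw]
  simp

theorem den_ne {v w : ℂ} (hv : ‖v‖ < 1) (hw : ‖w‖ ≤ 1) : 1 + v * w ≠ 0 := by
  intro h
  have h1 : v * w = -1 := by linear_combination h
  have h2 : ‖v * w‖ = 1 := by rw [h1, norm_neg, norm_one]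
  rw [norm_mul] at h2
  have h3 : ‖v‖ * ‖w‖ ≤ ‖v‖ * 1 := mul_le_mul_of_nonneg_left hw (norm_nonneg _)
  linarith

theorem cont_J {v : ℂ} (hv : ‖v‖ < 1) (m : ℕ) :
    CircleIntegrable (fun w => conj w ^ m / (1 + v * w)) 0 1 := by
  refine ContinuousOn.circleIntegrable zero_le_one ?_
  refine ContinuousOn.div ?_ ?_ fun w hw => den_ne hv (le_of_eq (by simpa using hw))
  · exact (Complex.continuous_conj.pow m).continuousOn
  · fun_prop

theorem J_eq {v : ℂ} (hv : ‖v‖ < 1) (m : ℕ) :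
    Real.circleAverage (fun w => conj w ^ m / (1 + v * w)) 0 1 = (-v) ^ m := by
  induction m with
  | zero =>
    have h1 : DifferentiableOn ℂ (fun w : ℂ => 1 / (1 + v * w)) (Metric.closedBall 0 1) := by
      refine DifferentiableOn.div (by fun_prop) (by fun_prop) fun w hw => den_ne hv (by simpa using hw)
    have h2 := mv h1
    simp only [pow_zero]
    rw [h2]
    simp
  | succ m ih =>
    have h1 : Real.circleAverage (fun w => conj w ^ (m + 1) / (1 + v * w)) 0 1 =
        Real.circleAverage (fun w => conj w ^ (m + 1) - v • (conj w ^ m / (1 + v * w))) 0 1 := by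
      refine Real.circleAverage_congr_sphere fun w hw => ?_
      rw [abs_one] at hw
      have hw1 : ‖w‖ = 1 := by simpa using hw
      have hd := den_ne hv hw1.le
      have hw0 : w ≠ 0 := by
        intro h0
        rw [h0, norm_zero] at hw1
        exact zero_ne_one hw1
      have hcw : w⁻¹ * w = 1 := inv_mul_cancel₀ hw0
      simp only [smul_eq_mul]
      rw [conj_inv hw1, eq_sub_iff_add_eq, ← mul_div_assoc, ← add_div, div_eq_iff hd, pow_succ]
      linear_combination (-v * (w⁻¹) ^ m) * hcw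
    have h2 : CircleIntegrable (fun w => conj w ^ (m + 1)) 0 1 :=
      ContinuousOn.circleIntegrable zero_le_one (Complex.continuous_conj.pow _).continuousOn
    have h3 : CircleIntegrable (fun w => v • (conj w ^ m / (1 + v * w))) 0 1 :=
      (cont_J hv m).const_smul
    have h4 : Real.circleAverage (fun w : ℂ => conj w ^ (m + 1)) 0 1 = 0 := by
      have h5 : Real.circleAverage (fun w : ℂ => conj w ^ (m + 1)) 0 1 =
          Real.circleAverage (fun w : ℂ => (w⁻¹) ^ (m + 1)) 0 1 := by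
        refine Real.circleAverage_congr_sphere fun w hw => ?_
        rw [abs_one] at hw
        rw [conj_inv (by simpa using hw)]
      have h6 : Real.circleAverage (fun w : ℂ => (w⁻¹) ^ (m + 1)) 0 1 =
          Real.circleAverage (fun w : ℂ => w ^ (m + 1)) 0 1 :=
        Real.circleAverage_zero_one_congr_inv (f := fun w : ℂ => w ^ (m + 1))
      rw [h5, h6, mv (by fun_prop)]
      simp
    rw [h1, Real.circleAverage_fun_sub h2 h3, h4, Real.circleAverage_fun_smul, ih, smul_eq_mul]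
    ring

/-- the averages pick the powers -/
theorem avg_eq {s : ℝ} (hs0 : 0 ≤ s) (hs1 : s < 1) {u : ℂ} (hu : ‖u‖ = 1) (m : ℕ) :
    Real.circleAverage (fun w => conj w ^ m * ((u + s * conj w) / (1 + s * w * u))) 0 1 =
      (-(s : ℂ)) ^ m * (1 - (s : ℂ) ^ 2) * u ^ (m + 1) := by
  have hv : ‖(s : ℂ) * u‖ < 1 := by
    rw [norm_mul, hu, mul_one, Complex.norm_real, Real.norm_of_nonneg hs0]
    exact hs1
  have h1 : (fun w : ℂ => conj w ^ m * ((u + s * conj w) / (1 + s * w * u))) =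
      fun w => u • (conj w ^ m / (1 + ((s : ℂ) * u) * w)) +
        (s : ℂ) • (conj w ^ (m + 1) / (1 + ((s : ℂ) * u) * w)) := by
    funext w
    simp only [smul_eq_mul]
    rw [show (s : ℂ) * w * u = (s : ℂ) * u * w by ring]
    ring
  have h3 : CircleIntegrable (fun w => u • (conj w ^ m / (1 + ((s : ℂ) * u) * w))) 0 1 :=
    (cont_J hv m).const_smul
  have h4 : CircleIntegrable (fun w => (s : ℂ) • (conj w ^ (m + 1) / (1 + ((s : ℂ) * u) * w))) 0 1 :=
    (cont_J hv (m + 1)).const_smul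
  rw [h1, Real.circleAverage_fun_add h3 h4,
    Real.circleAverage_fun_smul, Real.circleAverage_fun_smul, J_eq hv, J_eq hv, smul_eq_mul,
    smul_eq_mul, neg_mul_eq_neg_mul, mul_pow, mul_pow]
  ring

/-- the point of the disc -/
def pt (s θ : ℝ) : ℂ := s * conj (circleMap 0 1 θ)

theorem norm_pt {s : ℝ} (hs0 : 0 ≤ s) (θ : ℝ) : ‖pt s θ‖ = s := by
  rw [pt, norm_mul, RCLike.norm_conj, norm_circleMap_zero, abs_one, mul_one, Complex.norm_real,
    Real.norm_of_nonneg hs0]

theorem sy_pt {s : ℝ} {ξ : ℂ} (hξ : ξ ≠ 0) (θ : ℝ) :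
    sy (pt s θ) ξ = (conj ξ / ξ + s * conj (circleMap 0 1 θ)) /
      (1 + s * circleMap 0 1 θ * (conj ξ / ξ)) := by
  unfold sy mult pt
  rw [pow_one, map_mul, Complex.conj_conj, Complex.conj_ofReal, map_add, map_mul, map_mul,
    Complex.conj_conj, Complex.conj_ofReal]
  have h1 : conj ξ / ξ + s * conj (circleMap 0 1 θ) =
      (conj ξ + s * conj (circleMap 0 1 θ) * ξ) / ξ := by
    field_simp
  have h2 : 1 + s * circleMap 0 1 θ * (conj ξ / ξ) = (ξ + s * circleMap 0 1 θ * conj ξ) / ξ := by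
    field_simp
  rw [h1, h2, div_div_div_cancel_right₀ hξ]

/-- the uniform probability measure on the circle -/
def mu0 : Measure ℝ := ENNReal.ofReal (2 * Real.pi)⁻¹ • volume.restrict (Set.Ioc 0 (2 * Real.pi))

instance : IsProbabilityMeasure mu0 := by
  constructor
  rw [mu0, Measure.smul_apply, Measure.restrict_apply MeasurableSet.univ, Set.univ_inter,
    Real.volume_Ioc, sub_zero, smul_eq_mul, ← ENNReal.ofReal_mul (by positivity),
    inv_mul_cancel₀ (by positivity), ENNReal.ofReal_one]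

theorem integral_mu0 (G : ℂ → ℂ) :
    ∫ θ, G (circleMap 0 1 θ) ∂mu0 = Real.circleAverage G 0 1 := by
  rw [mu0, integral_smul_measure, Real.circleAverage_def, ENNReal.toReal_ofReal (by positivity),
    intervalIntegral.integral_of_le (by positivity)]

theorem norm_mult_le (n : ℕ) (ξ : ℂ) : ‖mult n ξ‖ ≤ 1 := P.norm_mult_le n ξ

/-- `u ^ (m + 1)` as an average of the symbols -/
theorem mult_avg {s : ℝ} (hs0 : 0 ≤ s) (hs1 : s < 1) (m : ℕ) {ξ : ℂ} (hξ : ξ ≠ 0) :
    ∫ θ, conj (circleMap 0 1 θ) ^ m * sy (pt s θ) ξ ∂mu0 =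
      (-(s : ℂ)) ^ m * (1 - (s : ℂ) ^ 2) * mult (m + 1) ξ := by
  have hu : ‖conj ξ / ξ‖ = 1 := by
    rw [norm_div, RCLike.norm_conj, div_self (norm_ne_zero_iff.2 hξ)]
  have h1 := avg_eq hs0 hs1 hu m
  rw [← integral_mu0] at h1
  unfold mult
  rw [← h1]
  refine integral_congr_ae (Eventually.of_forall fun θ => ?_)
  simp only
  rw [sy_pt hξ]

theorem meas_sy (s : ℝ) : Measurable fun q : ℝ × ℂ => sy (pt s q.1) q.2 := by
  unfold sy pt
  refine (measurable_mult 1).comp ?_
  refine Continuous.measurable ?_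
  have h1 : Continuous fun q : ℝ × ℂ => circleMap 0 1 q.1 := (continuous_circleMap 0 1).comp continuous_fst
  have h2 : Continuous fun q : ℝ × ℂ => conj (circleMap 0 1 q.1) := Complex.continuous_conj.comp h1
  have h3 : Continuous fun q : ℝ × ℂ => conj ((s : ℂ) * conj (circleMap 0 1 q.1)) :=
    Complex.continuous_conj.comp (continuous_const.mul h2)
  exact continuous_snd.add (h3.mul (Complex.continuous_conj.comp continuous_snd))

theorem ae_ne_zero : ∀ᵐ ξ : ℂ, ξ ≠ 0 := by
  rw [ae_iff]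
  simp

/-- the powers as averages -/
theorem Mf_avg {s : ℝ} (hs0 : 0 ≤ s) (hs1 : s < 1) (m : ℕ) {F : ℂ → ℂ} (hF : Integrable F)
    (hFm : Measurable F) (z : ℂ) :
    ∫ θ, conj (circleMap 0 1 θ) ^ m * Mf (sy (pt s θ)) F z ∂mu0 =
      (-(s : ℂ)) ^ m * (1 - (s : ℂ) ^ 2) * Mf (mult (m + 1)) F z := by
  have hmeas : Measurable fun q : ℝ × ℂ =>
      conj (circleMap 0 1 q.1) ^ m * ((𝐞 (inner ℝ q.2 z) : ℂ) * (sy (pt s q.1) q.2 * F q.2)) := by
    have h1 : Continuous fun q : ℝ × ℂ => conj (circleMap 0 1 q.1) ^ m :=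
      (Complex.continuous_conj.comp ((continuous_circleMap 0 1).comp continuous_fst)).pow m
    have h2 : Continuous fun q : ℝ × ℂ => ((𝐞 (inner ℝ q.2 z) : Circle) : ℂ) := by
      have h3 : Continuous fun q : ℝ × ℂ => ((z, q.2) : ℂ × ℂ) :=
        continuous_const.prodMk continuous_snd
      have h4 := cont_char.comp h3
      exact h4
    exact h1.measurable.mul (h2.measurable.mul ((meas_sy s).mul (hFm.comp measurable_snd)))
  have hint : Integrable (fun q : ℝ × ℂ =>
      conj (circleMap 0 1 q.1) ^ m * ((𝐞 (inner ℝ q.2 z) : ℂ) * (sy (pt s q.1) q.2 * F q.2)))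
      (mu0.prod volume) := by
    have h1 : Integrable (fun q : ℝ × ℂ => ‖F q.2‖) (mu0.prod volume) :=
      (hF.norm.comp_snd mu0)
    refine h1.mono' hmeas.aestronglyMeasurable (ae_of_all _ fun q => ?_)
    rw [norm_mul, norm_mul, norm_mul, norm_pow, RCLike.norm_conj, norm_circleMap_zero, abs_one,
      one_pow, one_mul, Circle.norm_coe, one_mul]
    exact mul_le_of_le_one_left (norm_nonneg _) (norm_mult_le 1 _)
  calc ∫ θ, conj (circleMap 0 1 θ) ^ m * Mf (sy (pt s θ)) F z ∂mu0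
      = ∫ θ, ∫ ξ, conj (circleMap 0 1 θ) ^ m *
          ((𝐞 (inner ℝ ξ z) : ℂ) * (sy (pt s θ) ξ * F ξ)) ∂volume ∂mu0 := by
        refine integral_congr_ae (Eventually.of_forall fun θ => ?_)
        simp only
        unfold Mf
        rw [← integral_const_mul]
        rfl
    _ = ∫ ξ, ∫ θ, conj (circleMap 0 1 θ) ^ m *
          ((𝐞 (inner ℝ ξ z) : ℂ) * (sy (pt s θ) ξ * F ξ)) ∂mu0 := integral_integral_swap hint
    _ = ∫ ξ, (-(s : ℂ)) ^ m * (1 - (s : ℂ) ^ 2) *
          ((𝐞 (inner ℝ ξ z) : ℂ) * (mult (m + 1) ξ * F ξ)) := by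
        refine integral_congr_ae ?_
        filter_upwards [ae_ne_zero] with ξ hξ
        have h1 := mult_avg hs0 hs1 m hξ
        calc ∫ θ, conj (circleMap 0 1 θ) ^ m *
              ((𝐞 (inner ℝ ξ z) : ℂ) * (sy (pt s θ) ξ * F ξ)) ∂mu0
            = ∫ θ, (conj (circleMap 0 1 θ) ^ m * sy (pt s θ) ξ) *
              ((𝐞 (inner ℝ ξ z) : ℂ) * F ξ) ∂mu0 := by
              refine integral_congr_ae (Eventually.of_forall fun θ => ?_)
              simp only
              ring
          _ = _ := by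
              rw [integral_mul_const, h1]
              ring
    _ = _ := by
        rw [integral_const_mul]
        rfl

/-- the bound for `T^(m+1)` from the bound for `T` -/
theorem TB_avg {p C : ℝ} (hp : 1 ≤ p) (h : TB 1 p C) {s : ℝ} (hs0 : 0 ≤ s)
    (hs1 : s < 1) (m : ℕ) (f : SchwartzMap ℂ ℂ) :
    ∫⁻ z, ‖(-(s : ℂ)) ^ m * (1 - (s : ℂ) ^ 2) * Tn (m + 1) f z‖ₑ ^ p ≤
      ENNReal.ofReal (C ^ p) * ∫⁻ z, ‖f z‖ₑ ^ p := by
  have hFi : Integrable (𝓕 (f : ℂ → ℂ)) := by
    rw [← SchwartzMap.fourier_coe]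
    exact (𝓕 f).integrable
  have hFm : Measurable (𝓕 (f : ℂ → ℂ)) := by
    rw [← SchwartzMap.fourier_coe]
    exact (𝓕 f).continuous.measurable
  have h1 : ∀ z, (-(s : ℂ)) ^ m * (1 - (s : ℂ) ^ 2) * Tn (m + 1) f z =
      ∫ θ, conj (circleMap 0 1 θ) ^ m * Mf (sy (pt s θ)) (𝓕 (f : ℂ → ℂ)) z ∂mu0 := by
    intro z
    rw [Tn_eq, Mf_avg hs0 hs1 m hFi hFm z]
  simp only [h1]
  refine mink mu0 (H := fun θ z => conj (circleMap 0 1 θ) ^ m *
    Mf (sy (pt s θ)) (𝓕 (f : ℂ → ℂ)) z) ?_ hp ?_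
  · have h2 : Continuous fun q : ℝ × ℂ => conj (circleMap 0 1 q.1) ^ m :=
      (Complex.continuous_conj.comp ((continuous_circleMap 0 1).comp continuous_fst)).pow m
    exact h2.stronglyMeasurable.mul (meas_param (m := fun θ => sy (pt s θ)) (meas_sy s) hFm)
  · intro θ
    have h2 : ∀ z, ‖conj (circleMap 0 1 θ) ^ m * Mf (sy (pt s θ)) (𝓕 (f : ℂ → ℂ)) z‖ₑ ^ p =
        ‖Mf (sy (pt s θ)) (𝓕 (f : ℂ → ℂ)) z‖ₑ ^ p := by
      intro z
      rw [enorm_mul]
      have h3 : ‖conj (circleMap 0 1 θ) ^ m‖ₑ = 1 := by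
        rw [← ofReal_norm, norm_pow, RCLike.norm_conj, norm_circleMap_zero, abs_one, one_pow,
          ENNReal.ofReal_one]
      rw [h3, one_mul]
    simp only [h2]
    exact lin_bound h (pt s θ) (by rw [norm_pt hs0]; exact hs1) f

end Pool.Agent.Helper4.AP
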