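import Pool.Agent.Helper72.BAM.LM

/-!
# Powers of the Beurling-Ahlfors transform: Fourier multipliers and averages (MP_3dd6d4_an)

`Mf m f` is the multiplier operator with symbol `m`; `T^n` is `Mf (mult n)`.
-/

set_option autoImplicit false

open MeasureTheory Complex FourierTransform Filter Topology
open scoped ENNReal NNReal ComplexConjugate

noncomputable section

namespace Pool.Agent.Helper4.AP

open Helper72.BA

/-- the multiplier operator with symbol `m`, given the Fourier transform `F` of the function -/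
def Mf (m F : ℂ → ℂ) (z : ℂ) : ℂ := ∫ ξ, 𝐞 (inner ℝ ξ z) • (m ξ * F ξ)

/-- bounds for `T^n` on Schwartz functions -/
def TB (n : ℕ) (p C : ℝ) : Prop := ∀ f : SchwartzMap ℂ ℂ,
  ∫⁻ z, ‖Tn n f z‖ₑ ^ p ≤ ENNReal.ofReal (C ^ p) * ∫⁻ z, ‖f z‖ₑ ^ p

theorem Tn_eq (n : ℕ) (f : ℂ → ℂ) (z : ℂ) : Tn n f z = Mf (mult n) (𝓕 f) z := by
  unfold Tn Mf
  refine integral_congr_ae (Eventually.of_forall fun ξ => ?_)
  simp only
  rw [Real.fourier_eq, Circle.smul_def, smul_eq_mul]
  congr 1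
  · rw [Real.fourierChar_apply, P.inner_eq]
    congr 1
    push_cast
    ring
  · unfold mult
    congr 1
    refine integral_congr_ae (Eventually.of_forall fun w => ?_)
    simp only
    rw [Circle.smul_def, smul_eq_mul, Real.fourierChar_apply, P.inner_eq]
    congr 2
    push_cast
    ring

theorem measurable_mult (n : ℕ) : Measurable (mult n) := by
  unfold mult
  exact ((Complex.continuous_conj.measurable.div measurable_id).pow_const n)

theorem cont_char : Continuous fun r : ℂ × ℂ => ((𝐞 (inner ℝ r.2 r.1) : Circle) : ℂ) := by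
  have h1 : Continuous fun r : ℂ × ℂ => (inner ℝ r.2 r.1 : ℝ) :=
    continuous_snd.inner continuous_fst
  have h2 : Continuous fun t : ℝ => ((𝐞 t : Circle) : ℂ) := by fun_prop
  exact h2.comp h1

theorem meas_char {Θ : Type} [MeasurableSpace Θ] :
    Measurable fun r : (Θ × ℂ) × ℂ => ((𝐞 (inner ℝ r.2 r.1.2) : Circle) : ℂ) := by
  have h3 : Measurable fun r : (Θ × ℂ) × ℂ => ((r.1.2, r.2) : ℂ × ℂ) :=
    (measurable_snd.comp measurable_fst).prodMk measurable_snd
  have h := cont_char.measurable.comp h3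
  exact h

/-- measurability in parameters -/
theorem meas_param {Θ : Type} [MeasurableSpace Θ] {m : Θ → ℂ → ℂ}
    (hm : Measurable fun q : Θ × ℂ => m q.1 q.2) {F : ℂ → ℂ} (hF : Measurable F) :
    StronglyMeasurable fun q : Θ × ℂ => Mf (m q.1) F q.2 := by
  have h1 : StronglyMeasurable fun r : (Θ × ℂ) × ℂ =>
      𝐞 (inner ℝ r.2 r.1.2) • (m r.1.1 r.2 * F r.2) := by
    have h5 : Measurable fun r : (Θ × ℂ) × ℂ => m r.1.1 r.2 * F r.2 :=
      (hm.comp ((measurable_fst.comp measurable_fst).prodMk measurable_snd)).mul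
        (hF.comp measurable_snd)
    have h6 := (meas_char.mul h5).stronglyMeasurable
    simp only [Circle.smul_def, smul_eq_mul]
    exact h6
  exact h1.integral_prod_right

/-- Jensen's inequality and Tonelli's theorem: averages of functions -/
theorem mink {Θ : Type} [MeasurableSpace Θ] (μ : Measure Θ) [IsProbabilityMeasure μ]
    {H : Θ → ℂ → ℂ} (hH : StronglyMeasurable fun q : Θ × ℂ => H q.1 q.2) {p : ℝ} (hp : 1 ≤ p)
    {B : ℝ≥0∞} (hB : ∀ t, ∫⁻ z, ‖H t z‖ₑ ^ p ≤ B) :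
    ∫⁻ z, ‖∫ t, H t z ∂μ‖ₑ ^ p ≤ B := by
  have hp0 : 0 < p := by linarith
  have h1 : ∀ z, ‖∫ t, H t z ∂μ‖ₑ ^ p ≤ ∫⁻ t, ‖H t z‖ₑ ^ p ∂μ := by
    intro z
    have hz : AEMeasurable (fun t => ‖H t z‖ₑ) μ := by
      have h2 : Measurable fun t : Θ => ((t, z) : Θ × ℂ) := measurable_id.prodMk measurable_const
      exact ((hH.comp_measurable h2).enorm).aemeasurable
    have h3 : ∫⁻ t, ‖H t z‖ₑ ∂μ ≤ (∫⁻ t, ‖H t z‖ₑ ^ p ∂μ) ^ (1 / p) := by
      have h4 := ENNReal.lintegral_mul_norm_pow_le (μ := μ) (f := fun t => ‖H t z‖ₑ ^ p)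
        (g := fun _ => (1 : ℝ≥0∞)) (hz.pow_const p) aemeasurable_const
        (p := 1 / p) (q := 1 - 1 / p) (by positivity) (by
          rw [sub_nonneg, div_le_one hp0]; exact hp) (by ring)
      simp only [ENNReal.one_rpow, mul_one, lintegral_const, measure_univ] at h4
      refine le_trans (le_of_eq ?_) h4
      refine lintegral_congr fun t => ?_
      rw [← ENNReal.rpow_mul, mul_one_div_cancel hp0.ne', ENNReal.rpow_one]
    calc ‖∫ t, H t z ∂μ‖ₑ ^ p ≤ ((∫⁻ t, ‖H t z‖ₑ ^ p ∂μ) ^ (1 / p)) ^ p := by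
          gcongr
          exact (enorm_integral_le_lintegral_enorm _).trans h3
      _ = ∫⁻ t, ‖H t z‖ₑ ^ p ∂μ := by
          rw [← ENNReal.rpow_mul, one_div_mul_cancel hp0.ne', ENNReal.rpow_one]
  calc ∫⁻ z, ‖∫ t, H t z ∂μ‖ₑ ^ p ≤ ∫⁻ z, ∫⁻ t, ‖H t z‖ₑ ^ p ∂μ := lintegral_mono h1
    _ = ∫⁻ t, ∫⁻ z : ℂ, ‖H t z‖ₑ ^ p ∂volume ∂μ := by
        refine lintegral_lintegral_swap ?_
        have h5 : Measurable fun q : ℂ × Θ => ((q.2, q.1) : Θ × ℂ) := measurable_swap
        exact (((hH.comp_measurable h5).enorm).pow_const p).aemeasurable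
    _ ≤ ∫⁻ _ : Θ, B ∂μ := lintegral_mono hB
    _ = B := by simp

end Pool.Agent.Helper4.AP
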