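import Pool.Agent.Helper4.AP.Av
import Pool.Agent.Helper72.BAM.L2
import Pool.Agent.Helper87.NF.AsmS

/-!
# Powers of the Beurling-Ahlfors transform: the bounds for `T^n` (MP_3dd6d4_an)
-/

set_option autoImplicit false

open MeasureTheory Complex FourierTransform Filter Topology
open scoped ENNReal NNReal ComplexConjugate

noncomputable section

namespace Pool.Agent.Helper4.AP

open Helper72.BA

/-- `(n+1)/2 * ((n+1)/(n-1)) ^ ((n-1)/2)` -/
def NN (n : ℕ) : ℝ :=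
  ((n : ℝ) + 1) / 2 * (((n : ℝ) + 1) / ((n : ℝ) - 1)) ^ (((n : ℝ) - 1) / 2)

theorem TB_of_eLp {n : ℕ} {p C : ℝ} (hp : 0 < p) (hC : 0 ≤ C) (h : ∀ f : SchwartzMap ℂ ℂ,
    eLpNorm (fun z => Tn n f z) (ENNReal.ofReal p) volume ≤
      ENNReal.ofReal C * eLpNorm (fun z => f z) (ENNReal.ofReal p) volume) : TB n p C := by
  intro f
  have h0 : ENNReal.ofReal p ≠ 0 := by simpa using hp
  have h1 := h f
  rw [eLpNorm_eq_lintegral_rpow_enorm_toReal h0 ENNReal.ofReal_ne_top,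
    eLpNorm_eq_lintegral_rpow_enorm_toReal h0 ENNReal.ofReal_ne_top, ENNReal.toReal_ofReal hp.le]
    at h1
  have h2 := ENNReal.rpow_le_rpow h1 hp.le
  rw [ENNReal.mul_rpow_of_nonneg _ _ hp.le, ← ENNReal.rpow_mul, ← ENNReal.rpow_mul,
    one_div_mul_cancel hp.ne', ENNReal.rpow_one, ENNReal.rpow_one,
    ENNReal.ofReal_rpow_of_nonneg hC hp.le] at h2
  exact h2

theorem eLp_of_TB {n : ℕ} {p C : ℝ} (hp : 0 < p) (hC : 0 ≤ C) (h : TB n p C)
    (f : SchwartzMap ℂ ℂ) : eLpNorm (fun z => Tn n f z) (ENNReal.ofReal p) volume ≤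
      ENNReal.ofReal C * eLpNorm (fun z => f z) (ENNReal.ofReal p) volume := by
  have h0 : ENNReal.ofReal p ≠ 0 := by simpa using hp
  rw [eLpNorm_eq_lintegral_rpow_enorm_toReal h0 ENNReal.ofReal_ne_top,
    eLpNorm_eq_lintegral_rpow_enorm_toReal h0 ENNReal.ofReal_ne_top, ENNReal.toReal_ofReal hp.le]
  calc (∫⁻ z, ‖Tn n f z‖ₑ ^ p) ^ (1 / p) ≤ (ENNReal.ofReal (C ^ p) * ∫⁻ z, ‖f z‖ₑ ^ p) ^ (1 / p) := by
        gcongr
        exact h f
    _ = ENNReal.ofReal C * (∫⁻ z, ‖f z‖ₑ ^ p) ^ (1 / p) := by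
        rw [ENNReal.mul_rpow_of_nonneg _ _ (by positivity),
          ENNReal.ofReal_rpow_of_nonneg (by positivity) (by positivity), one_div,
          Real.rpow_rpow_inv hC hp.ne']

/-- the case `n = 1` (Iwaniec's conjecture) -/
theorem TB_one (p : ℝ) (hp : 1 < p) : TB 1 p (max (p - 1) (1 / (p - 1))) := by
  have h := (Helper87.NF.norm_T p hp).1
  refine TB_of_eLp (by linarith) (le_max_of_le_left (by linarith)) h

theorem TB_pow {p C : ℝ} (hp : 1 ≤ p) (hC : 0 ≤ C) (h : TB 1 p C) (m : ℕ) :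
    TB (m + 1) p (NN (m + 1) * C) := by
  intro f
  set s : ℝ := √((m : ℝ) / (m + 2)) with hs
  have hm0 : (0 : ℝ) ≤ m := m.cast_nonneg
  have hq0 : 0 ≤ (m : ℝ) / (m + 2) := by positivity
  have hs2 : s ^ 2 = (m : ℝ) / (m + 2) := Real.sq_sqrt hq0
  have hs0 : 0 ≤ s := Real.sqrt_nonneg _
  have hs1 : s < 1 := by
    rw [hs, Real.sqrt_lt' one_pos, div_lt_iff₀ (by positivity)]
    linarith
  have h1 := TB_avg hp h hs0 hs1 m f
  set c : ℂ := (-(s : ℂ)) ^ m * (1 - (s : ℂ) ^ 2) with hc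
  -- the norm of the constant
  have h1s : 1 - s ^ 2 = 2 / ((m : ℝ) + 2) := by
    rw [hs2]
    field_simp
    ring
  have hcn : ‖c‖ = s ^ m * (1 - s ^ 2) := by
    rw [hc, norm_mul, norm_pow, norm_neg, Complex.norm_real, Real.norm_of_nonneg hs0]
    congr 1
    have e : (1 : ℂ) - (s : ℂ) ^ 2 = ((1 - s ^ 2 : ℝ) : ℂ) := by push_cast; ring
    rw [e, Complex.norm_real, Real.norm_of_nonneg (by rw [h1s]; positivity)]
  have hpos : 0 < s ^ m := by
    rcases Nat.eq_zero_or_pos m with h0 | h0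
    · rw [h0, pow_zero]; exact one_pos
    · have : 0 < s := by
        rw [hs]
        exact Real.sqrt_pos.2 (div_pos (by exact_mod_cast h0) (by positivity))
      positivity
  have hK : 0 < s ^ m * (1 - s ^ 2) := by
    rw [h1s]; positivity
  have hNN : NN (m + 1) = (s ^ m * (1 - s ^ 2))⁻¹ := by
    rw [h1s, NN]
    have e1 : (((m + 1 : ℕ) : ℝ) + 1) = m + 2 := by push_cast; ring
    have e2 : (((m + 1 : ℕ) : ℝ) - 1) = m := by push_cast; ring
    rw [e1, e2]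
    have e3 : s ^ m = ((m : ℝ) / (m + 2)) ^ ((m : ℝ) / 2) := by
      rw [← hs2, ← Real.rpow_natCast s 2, ← Real.rpow_mul hs0, ← Real.rpow_natCast s m]
      congr 1
      push_cast
      ring
    rw [e3, mul_inv, ← Real.inv_rpow hq0, inv_div, inv_div]
    ring
  have h2 : ∀ z, ‖c * Tn (m + 1) f z‖ₑ ^ p =
      ENNReal.ofReal (‖c‖ ^ p) * ‖Tn (m + 1) f z‖ₑ ^ p := by
    intro z
    rw [enorm_mul, ENNReal.mul_rpow_of_nonneg _ _ (by linarith), ← ofReal_norm (x := c),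
      ENNReal.ofReal_rpow_of_nonneg (norm_nonneg _) (by linarith)]
  simp only [h2] at h1
  have hcp : 0 < ‖c‖ := by rw [hcn]; exact hK
  rw [lintegral_const_mul' _ _ ENNReal.ofReal_ne_top] at h1
  have h3 : ENNReal.ofReal ((NN (m + 1)) ^ p) * ENNReal.ofReal (‖c‖ ^ p) = 1 := by
    rw [← ENNReal.ofReal_mul (by rw [hNN]; positivity), hNN, hcn,
      ← Real.mul_rpow (by positivity) hK.le, inv_mul_cancel₀ hK.ne', Real.one_rpow,
      ENNReal.ofReal_one]
  have hN0 : 0 ≤ NN (m + 1) := by rw [hNN]; positivity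
  calc ∫⁻ z, ‖Tn (m + 1) f z‖ₑ ^ p
      = ENNReal.ofReal ((NN (m + 1)) ^ p) * (ENNReal.ofReal (‖c‖ ^ p) *
          ∫⁻ z, ‖Tn (m + 1) f z‖ₑ ^ p) := by rw [← mul_assoc, h3, one_mul]
    _ ≤ ENNReal.ofReal ((NN (m + 1)) ^ p) * (ENNReal.ofReal (C ^ p) * ∫⁻ z, ‖f z‖ₑ ^ p) := by
        gcongr
    _ = ENNReal.ofReal ((NN (m + 1) * C) ^ p) * ∫⁻ z, ‖f z‖ₑ ^ p := by
        rw [← mul_assoc, ← ENNReal.ofReal_mul (by positivity), Real.mul_rpow hN0 hC]

theorem NN_pos (n : ℕ) (hn : 1 ≤ n) : 0 < NN n := by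
  rcases Nat.lt_or_ge 1 n with h | h
  · have h1 : (1 : ℝ) < n := by exact_mod_cast h
    have h2 : 0 < (n : ℝ) - 1 := by linarith
    unfold NN
    positivity
  · have h1 : n = 1 := le_antisymm h hn
    subst h1
    unfold NN
    norm_num

/-- bounds for all powers and all exponents -/
theorem TB_all (n : ℕ) (hn : 1 ≤ n) (p : ℝ) (hp : 1 < p) :
    TB n p (NN n * max (p - 1) (1 / (p - 1))) := by
  obtain ⟨m, rfl⟩ : ∃ m, n = m + 1 := ⟨n - 1, by omega⟩
  exact TB_pow hp.le (le_max_of_le_left (by linarith)) (TB_one p hp) m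

/-- `T^n` is a contraction in `L²` -/
theorem TB_two (n : ℕ) : TB n 2 1 := by
  intro f
  have h := P.limit_schwartz n 2 (by norm_num) 1 (fun N f hf => by
    have h1 := sum_nrm_two_windows n (Finset.univ : Finset Unit)
      (fun _ => Finset.Ico (-N : ℤ) N) (fun i _ j _ hij => absurd (Subsingleton.elim i j) hij) f hf
    simp only [Finset.univ_unique, Finset.sum_singleton] at h1
    rw [one_mul]
    have e : ∀ g : ℂ → ℂ, nrm 2 g = ∫⁻ z, ‖g z‖ₑ ^ (2 : ℝ) := by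
      intro g
      unfold nrm
      refine lintegral_congr fun z => ?_
      rw [← ENNReal.rpow_natCast]
      norm_num
    rw [← e, ← e]
    exact h1) f
  rw [Real.one_rpow, ENNReal.ofReal_one]
  exact h

end Pool.Agent.Helper4.AP
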