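import Pool.Agent.Helper4.AP.Basic
import Pool.Agent.Helper72.BAM.RTS
import Pool.Agent.Helper72.BAM.FB1

/-!
# Powers of the Beurling-Ahlfors transform: interpolation with `L²` (MP_3dd6d4_an)
-/

set_option autoImplicit false

open MeasureTheory Complex FourierTransform Filter Topology
open scoped ENNReal NNReal ComplexConjugate ContDiff

noncomputable section

namespace Pool.Agent.Helper4.AP

open Helper72.BA

/-- the mollifier -/
def kr (φ : ContDiffBump (0 : ℂ)) (z : ℂ) : ℂ := ((φ.normed volume z : ℝ) : ℂ)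

/-- truncation -/
def ind (R : ℝ) (f : ℂ → ℂ) : ℂ → ℂ := (Metric.ball (0 : ℂ) R).indicator f

/-- mollified truncation -/
def AA (φ : ContDiffBump (0 : ℂ)) (R : ℝ) (f : ℂ → ℂ) : ℂ → ℂ := cv (kr φ) (ind R f)

theorem kr_smooth (φ : ContDiffBump (0 : ℂ)) : ContDiff ℝ ∞ (kr φ) :=
  Complex.ofRealCLM.contDiff.comp (φ.contDiff_normed (n := ⊤))

theorem kr_comp (φ : ContDiffBump (0 : ℂ)) : HasCompactSupport (kr φ) :=
  (φ.hasCompactSupport_normed (μ := volume)).comp_left (g := fun x : ℝ => (x : ℂ)) rfl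

theorem kr_Ker (φ : ContDiffBump (0 : ℂ)) : Ker (kr φ) :=
  ⟨(kr_comp φ).toSchwartzMap (kr_smooth φ), rfl⟩

theorem ind_nice {R : ℝ} {f : ℂ → ℂ} (hf : Nice f) : Nice (ind R f) where
  meas := hf.meas.indicator Metric.isOpen_ball.measurableSet
  int := hf.int.indicator Metric.isOpen_ball.measurableSet
  bdd := by
    obtain ⟨C, hC⟩ := hf.bdd
    refine ⟨C, fun z => ?_⟩
    unfold ind
    by_cases hz : z ∈ Metric.ball (0 : ℂ) R
    · rw [Set.indicator_of_mem hz]; exact hC z
    · rw [Set.indicator_of_notMem hz, norm_zero]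
      exact (norm_nonneg _).trans (hC z)

theorem AA_nice (φ : ContDiffBump (0 : ℂ)) (R : ℝ) {f : ℂ → ℂ} (hf : Nice f) : Nice (AA φ R f) :=
  nice_cv (kr_Ker φ) (ind_nice hf)

theorem AA_schwartz (φ : ContDiffBump (0 : ℂ)) (R : ℝ) {f : ℂ → ℂ} (hf : Nice f) :
    ∃ g : SchwartzMap ℂ ℂ, (g : ℂ → ℂ) = AA φ R f := by
  have h1 : AA φ R f = convolution (ind R f) (kr φ) (ContinuousLinearMap.mul ℝ ℂ) volume := by
    funext z
    unfold AA cv convolution
    refine integral_congr_ae (Eventually.of_forall fun w => ?_)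
    simp only [ContinuousLinearMap.mul_apply']
    ring
  have hc : HasCompactSupport (ind R f) := by
    refine HasCompactSupport.of_support_subset_isCompact (isCompact_closedBall (0 : ℂ) R) ?_
    refine (Function.support_subset_iff'.2 fun x hx => ?_)
    unfold ind
    rw [Set.indicator_of_notMem fun h => hx (Metric.ball_subset_closedBall h)]
  have h2 : ContDiff ℝ ∞ (AA φ R f) := by
    rw [h1]
    have h := HasCompactSupport.contDiff_convolution_right (n := ⊤) (μ := (volume : Measure ℂ))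
      (ContinuousLinearMap.mul ℝ ℂ) (kr_comp φ) (ind_nice (R := R) hf).int.locallyIntegrable
      (kr_smooth φ)
    exact h
  have h3 : HasCompactSupport (AA φ R f) := by
    rw [h1]
    have h := HasCompactSupport.convolution (μ := (volume : Measure ℂ))
      (ContinuousLinearMap.mul ℝ ℂ) hc (kr_comp φ)
    exact h
  exact ⟨h3.toSchwartzMap h2, rfl⟩

/-- the density of the mollifier -/
def nu (φ : ContDiffBump (0 : ℂ)) : Measure ℂ :=
  volume.withDensity fun t => ((φ.normed volume t).toNNReal : ℝ≥0∞)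

theorem nu_prob (φ : ContDiffBump (0 : ℂ)) : IsProbabilityMeasure (nu φ) := by
  constructor
  rw [nu, withDensity_apply _ MeasurableSet.univ, Measure.restrict_univ]
  have h1 := ofReal_integral_eq_lintegral_ofReal (φ.integrable_normed (μ := volume))
    (ae_of_all _ (φ.nonneg_normed (μ := volume)))
  rw [φ.integral_normed, ENNReal.ofReal_one] at h1
  exact h1.symm

/-- Young's inequality for the mollified truncation -/
theorem AA_young (φ : ContDiffBump (0 : ℂ)) (R : ℝ) {f : ℂ → ℂ} (hf : Nice f) {p : ℝ}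
    (hp : 1 ≤ p) : ∫⁻ z, ‖AA φ R f z‖ₑ ^ p ≤ ∫⁻ z, ‖f z‖ₑ ^ p := by
  have := nu_prob φ
  have h1 : ∀ z, AA φ R f z = ∫ t, ind R f (z - t) ∂(nu φ) := by
    intro z
    have h2 : ∫ t, ind R f (z - t) ∂(nu φ) =
        ∫ t, (φ.normed volume t).toNNReal • ind R f (z - t) := by
      rw [nu, integral_withDensity_eq_integral_smul
        (φ.continuous_normed (μ := volume)).measurable.real_toNNReal]
    have h3 : ∀ t, (φ.normed volume t).toNNReal • ind R f (z - t) =
        (fun w => kr φ (z - w) * ind R f w) (z - t) := by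
      intro t
      simp only [sub_sub_cancel]
      rw [NNReal.smul_def, Real.coe_toNNReal _ (φ.nonneg_normed t), Complex.real_smul]
      rfl
    rw [h2]
    simp only [h3]
    rw [integral_sub_left_eq_self (fun w => kr φ (z - w) * ind R f w) volume z]
    rfl
  simp only [h1]
  refine mink (nu φ) (H := fun t z => ind R f (z - t)) ?_ hp fun t => ?_
  · have h4 : Measurable fun q : ℂ × ℂ => q.2 - q.1 := measurable_snd.sub measurable_fst
    exact (((ind_nice (R := R) hf).meas).comp h4).stronglyMeasurable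
  · rw [lintegral_sub_right_eq_self (fun z => ‖ind R f z‖ₑ ^ p) t]
    refine lintegral_mono fun z => ?_
    unfold ind
    by_cases hz : z ∈ Metric.ball (0 : ℂ) R
    · rw [Set.indicator_of_mem hz]
    · rw [Set.indicator_of_notMem hz, enorm_zero, ENNReal.zero_rpow_of_pos (by linarith)]
      exact zero_le

theorem meas_Mf {m F : ℂ → ℂ} (hm : Measurable m) (hF : Measurable F) : Measurable (Mf m F) := by
  have h1 := meas_param (Θ := Unit) (m := fun _ => m) (hm.comp measurable_snd) hF
  have h2 : Measurable fun z : ℂ => (((), z) : Unit × ℂ) := measurable_const.prodMk measurable_id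
  have h3 := h1.measurable.comp h2
  exact h3

theorem int_Mf {F : ℂ → ℂ} (n : ℕ) (hF : Integrable F) (z : ℂ) :
    Integrable fun ξ => 𝐞 (inner ℝ ξ z) • (mult n ξ * F ξ) := by
  have h1 : Integrable fun ξ => mult n ξ * F ξ :=
    hF.bdd_mul (c := 1) (measurable_mult n).aestronglyMeasurable
      (ae_of_all _ fun ξ => P.norm_mult_le n ξ)
  have h2 : Measurable fun ξ : ℂ => ((𝐞 (inner ℝ ξ z) : Circle) : ℂ) := by
    have h3 : Measurable fun ξ : ℂ => ((z, ξ) : ℂ × ℂ) := measurable_const.prodMk measurable_id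
    have h4 := cont_char.measurable.comp h3
    exact h4
  exact h1.bdd_mul (c := 1) h2.aestronglyMeasurable (ae_of_all _ fun ξ => (Circle.norm_coe _).le)

theorem meas_fourier {f : ℂ → ℂ} (hf : Integrable f) : Measurable (𝓕 f) :=
  (VectorFourier.fourierIntegral_continuous Real.continuous_fourierChar
      (by exact continuous_inner) hf).measurable

/-- the operators to which the interpolation theorem is applied -/
def TT (n : ℕ) (φ : ContDiffBump (0 : ℂ)) (R : ℝ) (f : ℂ → ℂ) : ℂ → ℂ :=
  fun z => Mf (mult n) (𝓕 (AA φ R f)) z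

theorem AA_int (φ : ContDiffBump (0 : ℂ)) (R : ℝ) {f : ℂ → ℂ} (hf : Nice f) :
    Integrable (𝓕 (AA φ R f)) := integrable_fourier_cv (kr_Ker φ) (ind_nice hf)

theorem TT_bound {n : ℕ} {q C : ℝ} (hq : 1 ≤ q) (h : TB n q C) (φ : ContDiffBump (0 : ℂ)) (R : ℝ)
    {f : ℂ → ℂ} (hf : Nice f) :
    ∫⁻ z, ‖TT n φ R f z‖ₑ ^ q ≤ ENNReal.ofReal (C ^ q) * ∫⁻ z, ‖f z‖ₑ ^ q := by
  obtain ⟨g, hg⟩ := AA_schwartz φ R hf
  have h1 : ∀ z, TT n φ R f z = Tn n g z := by
    intro z
    rw [Tn_eq, hg]
    rfl
  simp only [h1]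
  have h2 := AA_young φ R hf hq
  rw [← hg] at h2
  exact (h g).trans (mul_le_mul_right h2 _)

theorem TT_interp {n : ℕ} {r C : ℝ} (hr : 2 < r) (hC : 0 < C) (h2 : TB n 2 1) (hT : TB n r C)
    (φ : ContDiffBump (0 : ℂ)) (R : ℝ) {θ p : ℝ} (hθ0 : 0 ≤ θ) (hθ1 : θ ≤ 1)
    (hp : 1 / p = (1 - θ) / 2 + θ / r) {f : ℂ → ℂ} (hf : Nice f) :
    ∫⁻ z, ‖TT n φ R f z‖ₑ ^ p ≤ ENNReal.ofReal ((C ^ θ) ^ p) * ∫⁻ z, ‖f z‖ₑ ^ p := by
  have h := RTS (TT n φ R) (fun f hf => meas_Mf (measurable_mult n)
      (meas_fourier (AA_nice φ R hf).int)) ?_ ?_ 2 r (by norm_num) hr 1 C one_pos hC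
      (fun f hf => TT_bound (by norm_num) h2 φ R hf) (fun f hf => TT_bound (by linarith) hT φ R hf)
      θ p hθ0 hθ1 hp f hf
  · rw [Real.one_rpow, one_mul] at h
    exact h
  · intro f g hf hg
    funext z
    have e1 : AA φ R (f + g) = AA φ R f + AA φ R g := by
      unfold AA
      have e2 : ind R (f + g) = ind R f + ind R g := by
        unfold ind
        exact Set.indicator_add' _ _ _
      rw [e2, P.cv_add (kr_Ker φ) (ind_nice hf) (ind_nice hg)]
    have e3 : 𝓕 (AA φ R (f + g)) = fun ξ => 𝓕 (AA φ R f) ξ + 𝓕 (AA φ R g) ξ := by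
      funext ξ
      rw [e1, Real.fourier_eq, Real.fourier_eq, Real.fourier_eq, ← integral_add]
      · refine integral_congr_ae (Eventually.of_forall fun w => ?_)
        simp only [Pi.add_apply, smul_add]
      · exact (Real.fourierIntegral_convergent_iff ξ).2 (AA_nice φ R hf).int
      · exact (Real.fourierIntegral_convergent_iff ξ).2 (AA_nice φ R hg).int
    simp only [TT, Pi.add_apply]
    unfold Mf
    rw [← integral_add (int_Mf n (AA_int φ R hf) z) (int_Mf n (AA_int φ R hg) z), e3]
    refine integral_congr_ae (Eventually.of_forall fun ξ => ?_)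
    simp only [mul_add, smul_add]
  · intro c f hf
    funext z
    have e1 : AA φ R (c • f) = c • AA φ R f := by
      unfold AA
      have e2 : ind R (c • f) = c • ind R f := by
        unfold ind
        exact Set.indicator_const_smul _ c f
      rw [e2, P.cv_smul]
    have e3 : 𝓕 (AA φ R (c • f)) = fun ξ => c * 𝓕 (AA φ R f) ξ := by
      funext ξ
      rw [e1, Real.fourier_eq, Real.fourier_eq, ← integral_const_mul]
      refine integral_congr_ae (Eventually.of_forall fun w => ?_)
      simp only [Pi.smul_apply, smul_eq_mul, Circle.smul_def]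
      ring
    simp only [TT, Pi.smul_apply, smul_eq_mul]
    unfold Mf
    rw [← integral_const_mul, e3]
    refine integral_congr_ae (Eventually.of_forall fun ξ => ?_)
    simp only [smul_eq_mul, Circle.smul_def]
    ring

end Pool.Agent.Helper4.AP
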