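import Pool.Agent.Helper4.AP.Int
import Pool.Agent.Helper4.AP.Bd

/-!
# Powers of the Beurling-Ahlfors transform: interpolated bounds (MP_3dd6d4_an)
-/

set_option autoImplicit false

open MeasureTheory Complex FourierTransform Filter Topology
open scoped ENNReal NNReal ComplexConjugate ContDiff

noncomputable section

namespace Pool.Agent.Helper4.AP

open Helper72.BA

/-- the mollified operator -/
def UU (n : ℕ) (φ : ContDiffBump (0 : ℂ)) (f : ℂ → ℂ) : ℂ → ℂ :=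
  fun z => Mf (mult n) (fun ξ => 𝓕 (kr φ) ξ * 𝓕 f ξ) z

theorem cont_char1 (z : ℂ) : Continuous fun ξ : ℂ => ((𝐞 (inner ℝ ξ z) : Circle) : ℂ) := by
  have h3 : Continuous fun ξ : ℂ => ((z, ξ) : ℂ × ℂ) := by fun_prop
  exact cont_char.comp h3

theorem ind_fourier_tendsto {f : ℂ → ℂ} (hf : Nice f) (ξ : ℂ) :
    Tendsto (fun j : ℕ => 𝓕 (ind j f) ξ) atTop (𝓝 (𝓕 f ξ)) := by
  simp only [Real.fourier_eq]
  refine tendsto_integral_of_dominated_convergence (fun w => ‖f w‖) ?_ hf.int.norm ?_ ?_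
  · intro j
    exact ((Real.fourierIntegral_convergent_iff ξ).2 (ind_nice (R := j) hf).int).aestronglyMeasurable
  · intro j
    refine Eventually.of_forall fun w => ?_
    rw [Circle.norm_smul]
    unfold ind
    exact norm_indicator_le_norm_self _ _
  · refine Eventually.of_forall fun w => ?_
    refine Tendsto.congr' ?_ tendsto_const_nhds
    obtain ⟨N, hN⟩ := exists_nat_gt ‖w‖
    filter_upwards [eventually_ge_atTop N] with j hj
    unfold ind
    rw [Set.indicator_of_mem]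
    rw [mem_ball_zero_iff]
    exact hN.trans_le (by exact_mod_cast hj)

theorem kr_int (φ : ContDiffBump (0 : ℂ)) : Integrable (kr φ) := (φ.integrable_normed).ofReal

theorem kr_norm (φ : ContDiffBump (0 : ℂ)) : ∫ w, ‖kr φ w‖ = 1 := by
  rw [← φ.integral_normed (μ := volume)]
  refine integral_congr_ae (Eventually.of_forall fun w => ?_)
  simp only [kr]
  rw [Complex.norm_real, Real.norm_of_nonneg (φ.nonneg_normed w)]

theorem kr_fourier_le (φ : ContDiffBump (0 : ℂ)) (ξ : ℂ) : ‖𝓕 (kr φ) ξ‖ ≤ 1 := by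
  rw [← kr_norm φ]
  exact VectorFourier.norm_fourierIntegral_le_integral_norm _ _ _ _ _

theorem kr_fourier_int (φ : ContDiffBump (0 : ℂ)) : Integrable (𝓕 (kr φ)) := by
  obtain ⟨s, hs⟩ := kr_Ker φ
  rw [hs, ← SchwartzMap.fourier_coe]
  exact (𝓕 s).integrable

theorem TT_tendsto (n : ℕ) (φ : ContDiffBump (0 : ℂ)) {f : ℂ → ℂ} (hf : Nice f) (z : ℂ) :
    Tendsto (fun j : ℕ => TT n φ j f z) atTop (𝓝 (UU n φ f z)) := by
  unfold TT UU Mf
  refine tendsto_integral_of_dominated_convergence (fun ξ => ‖𝓕 (kr φ) ξ‖ * ∫ w, ‖f w‖) ?_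
    ((kr_fourier_int φ).norm.mul_const _) ?_ ?_
  · intro j
    exact (int_Mf n (AA_int φ j hf) z).aestronglyMeasurable
  · intro j
    refine Eventually.of_forall fun ξ => ?_
    rw [Circle.norm_smul, norm_mul]
    have h1 : ‖𝓕 (AA φ j f) ξ‖ ≤ ‖𝓕 (kr φ) ξ‖ * ∫ w, ‖f w‖ := by
      have h2 : 𝓕 (AA φ j f) ξ = 𝓕 (kr φ) ξ * 𝓕 (ind j f) ξ := P.fourier_cv (kr_Ker φ) (ind_nice hf) ξ
      rw [h2, norm_mul]
      refine mul_le_mul_of_nonneg_left ?_ (norm_nonneg _)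
      have h3 : ‖𝓕 (ind j f) ξ‖ ≤ ∫ w, ‖ind j f w‖ :=
        VectorFourier.norm_fourierIntegral_le_integral_norm _ _ _ _ _
      refine h3.trans (integral_mono (ind_nice (R := j) hf).int.norm hf.int.norm fun w => ?_)
      unfold ind
      exact norm_indicator_le_norm_self _ _
    exact (mul_le_of_le_one_left (norm_nonneg _) (P.norm_mult_le n ξ)).trans h1
  · refine Eventually.of_forall fun ξ => ?_
    have h2 : ∀ j : ℕ, 𝓕 (AA φ j f) ξ = 𝓕 (kr φ) ξ * 𝓕 (ind j f) ξ := fun j =>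
      P.fourier_cv (kr_Ker φ) (ind_nice hf) ξ
    simp only [h2]
    exact (((ind_fourier_tendsto hf ξ).const_mul _).const_mul _).const_smul _

theorem fatou {F : ℕ → ℂ → ℂ} {G : ℂ → ℂ} (hF : ∀ j, Measurable (F j))
    (hl : ∀ z, Tendsto (fun j => F j z) atTop (𝓝 (G z))) {p : ℝ} {M : ℝ≥0∞}
    (hM : ∀ j, ∫⁻ z, ‖F j z‖ₑ ^ p ≤ M) : ∫⁻ z, ‖G z‖ₑ ^ p ≤ M := by
  have hFatou : ∫⁻ z, ‖G z‖ₑ ^ p ≤ liminf (fun j : ℕ => ∫⁻ z, ‖F j z‖ₑ ^ p) atTop := by
    have h1 : ∀ z, ‖G z‖ₑ ^ p = liminf (fun j : ℕ => ‖F j z‖ₑ ^ p) atTop := by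
      intro z
      refine (Tendsto.liminf_eq ?_).symm
      exact ((ENNReal.continuous_rpow_const (y := p)).tendsto _).comp
        ((continuous_enorm.tendsto _).comp (hl z))
    simp_rw [h1]
    exact lintegral_liminf_le fun j => ((hF j).enorm).pow_const p
  exact hFatou.trans (liminf_le_of_frequently_le' (Frequently.of_forall hM))

theorem meas_UU (n : ℕ) (φ : ContDiffBump (0 : ℂ)) {f : ℂ → ℂ} (hf : Nice f) :
    Measurable (UU n φ f) :=
  meas_Mf (measurable_mult n) ((meas_fourier (kr_int φ)).mul (meas_fourier hf.int))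

theorem UU_bound {n : ℕ} {r C : ℝ} (hr : 2 < r) (hC : 0 < C) (h2 : TB n 2 1) (hT : TB n r C)
    (φ : ContDiffBump (0 : ℂ)) {θ p : ℝ} (hθ0 : 0 ≤ θ) (hθ1 : θ ≤ 1) (hp0 : 0 ≤ p)
    (hp : 1 / p = (1 - θ) / 2 + θ / r) {f : ℂ → ℂ} (hf : Nice f) :
    ∫⁻ z, ‖UU n φ f z‖ₑ ^ p ≤ ENNReal.ofReal ((C ^ θ) ^ p) * ∫⁻ z, ‖f z‖ₑ ^ p := by
  refine fatou (F := fun j : ℕ => TT n φ j f) (fun j => ?_) (fun z => TT_tendsto n φ hf z)
    fun j => TT_interp hr hC h2 hT φ j hθ0 hθ1 hp hf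
  exact meas_Mf (measurable_mult n) (meas_fourier (AA_nice φ j hf).int)

/-- a shrinking sequence of mollifiers -/
def ph (k : ℕ) : ContDiffBump (0 : ℂ) where
  rIn := 1 / (2 * ((k : ℝ) + 1))
  rOut := 1 / ((k : ℝ) + 1)
  rIn_pos := by positivity
  rIn_lt_rOut := by
    apply one_div_lt_one_div_of_lt
    · positivity
    · have : (0 : ℝ) ≤ k := k.cast_nonneg
      linarith

theorem ph_fourier (ξ : ℂ) : Tendsto (fun k : ℕ => 𝓕 (kr (ph k)) ξ) atTop (𝓝 1) := by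
  have hφ : Tendsto (fun k : ℕ => (ph k).rOut) atTop (𝓝 0) := by
    have h : (fun k : ℕ => (ph k).rOut) = fun k : ℕ => 1 / ((k : ℝ) + 1) := rfl
    rw [h]
    exact tendsto_one_div_add_atTop_nhds_zero_nat
  have hg : Continuous fun w : ℂ => ((𝐞 (inner ℝ w ξ) : Circle) : ℂ) := cont_char1 ξ
  have h1 := ContDiffBump.convolution_tendsto_right_of_continuous (μ := (volume : Measure ℂ))
    (φ := ph) hφ hg 0
  have h2 : ((𝐞 (inner ℝ (0 : ℂ) ξ) : Circle) : ℂ) = 1 := by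
    rw [inner_zero_left]
    simp
  rw [h2] at h1
  refine h1.congr fun k => ?_
  unfold convolution
  rw [Real.fourier_eq]
  refine integral_congr_ae (Eventually.of_forall fun w => ?_)
  simp only [ContinuousLinearMap.lsmul_apply, zero_sub, inner_neg_left]
  rw [Circle.smul_def, Complex.real_smul, smul_eq_mul]
  unfold kr
  ring

theorem UU_tendsto (n : ℕ) (f : SchwartzMap ℂ ℂ) (z : ℂ) :
    Tendsto (fun k : ℕ => UU n (ph k) f z) atTop (𝓝 (Tn n f z)) := by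
  have hfi : Integrable (𝓕 (f : ℂ → ℂ)) := by
    rw [← SchwartzMap.fourier_coe]
    exact (𝓕 f).integrable
  have hf := P.nice_schwartz f
  rw [Tn_eq]
  unfold UU Mf
  refine tendsto_integral_of_dominated_convergence (fun ξ => ‖𝓕 (f : ℂ → ℂ) ξ‖) ?_ hfi.norm ?_ ?_
  · intro k
    have h1 : Integrable fun ξ => 𝓕 (kr (ph k)) ξ * 𝓕 (f : ℂ → ℂ) ξ :=
      hfi.bdd_mul (c := 1) (meas_fourier (kr_int _)).aestronglyMeasurable
        (ae_of_all _ fun ξ => kr_fourier_le _ ξ)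
    exact (int_Mf n h1 z).aestronglyMeasurable
  · intro k
    refine Eventually.of_forall fun ξ => ?_
    rw [Circle.norm_smul, norm_mul, norm_mul]
    refine (mul_le_of_le_one_left (by positivity) (P.norm_mult_le n ξ)).trans ?_
    exact mul_le_of_le_one_left (norm_nonneg _) (kr_fourier_le _ ξ)
  · refine Eventually.of_forall fun ξ => ?_
    have h1 : Tendsto (fun k : ℕ => 𝓕 (kr (ph k)) ξ * 𝓕 (f : ℂ → ℂ) ξ) atTop
        (𝓝 (1 * 𝓕 (f : ℂ → ℂ) ξ)) := (ph_fourier ξ).mul_const _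
    rw [one_mul] at h1
    exact (h1.const_mul _).const_smul _

/-- interpolation between `L²` and `L^r` for `T^n` on Schwartz functions -/
theorem TB_interp {n : ℕ} {r C : ℝ} (hr : 2 < r) (hC : 0 < C) (hT : TB n r C) {p : ℝ}
    (hp2 : 2 ≤ p) (hpr : p ≤ r) : TB n p (C ^ ((1 - 2 / p) / (1 - 2 / r))) := by
  intro f
  have hf := P.nice_schwartz f
  have hp0 : 0 < p := by linarith
  have hr0 : 0 < r := by linarith
  have h2r : 0 < 1 - 2 / r := by
    rw [sub_pos, div_lt_one hr0]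
    exact hr
  set θ : ℝ := (1 - 2 / p) / (1 - 2 / r) with hθ
  have hθ0 : 0 ≤ θ := by
    refine div_nonneg ?_ h2r.le
    rw [sub_nonneg, div_le_one hp0]
    exact hp2
  have hθ1 : θ ≤ 1 := by
    rw [hθ, div_le_one h2r]
    have : 2 / r ≤ 2 / p := by gcongr
    linarith
  have hp : 1 / p = (1 - θ) / 2 + θ / r := by
    have e : θ * (1 - 2 / r) = 1 - 2 / p := by
      rw [hθ]
      exact div_mul_cancel₀ _ h2r.ne'
    have e1 : (1 - θ) / 2 + θ / r = (1 - θ * (1 - 2 / r)) / 2 := by ring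
    rw [e1, e]
    ring
  exact fatou (F := fun k : ℕ => UU n (ph k) f) (fun k => meas_UU n _ hf)
    (fun z => UU_tendsto n f z)
    fun k => UU_bound hr hC (TB_two n) hT (ph k) hθ0 hθ1 hp0.le hp hf

end Pool.Agent.Helper4.AP
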