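import Pool.Agent.Helper4.AP.Basic

/-!
# Powers of the Beurling-Ahlfors transform: linear changes of variables (MP_3dd6d4_an)
-/

set_option autoImplicit false

open MeasureTheory Complex FourierTransform Filter Topology
open scoped ENNReal NNReal ComplexConjugate

noncomputable section

namespace Pool.Agent.Helper4.AP

open Helper72.BA

/-- `ξ + conj a * conj ξ` -/
def f1 (a : ℂ) : ℂ →L[ℝ] ℂ :=
  ContinuousLinearMap.id ℝ ℂ + (conj a) • (Complex.conjCLE : ℂ →L[ℝ] ℂ)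

/-- the inverse map -/
def f2 (a : ℂ) : ℂ →L[ℝ] ℂ :=
  ((1 - normSq a)⁻¹ : ℝ) • (ContinuousLinearMap.id ℝ ℂ - (conj a) • (Complex.conjCLE : ℂ →L[ℝ] ℂ))

theorem f1_apply (a ξ : ℂ) : f1 a ξ = ξ + conj a * conj ξ := by
  simp [f1]

theorem f2_apply (a ξ : ℂ) : f2 a ξ = ((1 - normSq a)⁻¹ : ℝ) * (ξ - conj a * conj ξ) := by
  simp [f2]

theorem normSq_lt {a : ℂ} (ha : ‖a‖ < 1) : normSq a < 1 := by
  rw [Complex.normSq_eq_norm_sq]
  have := norm_nonneg a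
  nlinarith

theorem left_inv {a : ℂ} (ha : ‖a‖ < 1) : Function.LeftInverse (f2 a) (f1 a) := by
  intro ξ
  have h := normSq_lt ha
  have h1 : ((1 - normSq a : ℝ) : ℂ) ≠ 0 := by
    exact_mod_cast (by linarith : (1 - normSq a) ≠ 0)
  have h2 : conj a * a = ((normSq a : ℝ) : ℂ) := by rw [mul_comm, Complex.mul_conj]
  rw [f1_apply, f2_apply, map_add, map_mul, Complex.conj_conj, Complex.conj_conj]
  push_cast at h1 ⊢
  field_simp
  linear_combination (-ξ) * h2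

theorem right_inv {a : ℂ} (ha : ‖a‖ < 1) : Function.RightInverse (f2 a) (f1 a) := by
  intro ξ
  have h := normSq_lt ha
  have h1 : ((1 - normSq a : ℝ) : ℂ) ≠ 0 := by
    exact_mod_cast (by linarith : (1 - normSq a) ≠ 0)
  have h2 : conj a * a = ((normSq a : ℝ) : ℂ) := by rw [mul_comm, Complex.mul_conj]
  rw [f1_apply, f2_apply, map_mul, map_sub, map_mul, Complex.conj_conj, Complex.conj_conj,
    Complex.conj_ofReal]
  push_cast at h1 ⊢
  field_simp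
  linear_combination (-ξ) * h2

/-- the linear change of variables -/
def Bl (a : ℂ) (ha : ‖a‖ < 1) : ℂ ≃L[ℝ] ℂ :=
  ContinuousLinearEquiv.equivOfInverse (f1 a) (f2 a) (left_inv ha) (right_inv ha)

theorem Bl_apply (a : ℂ) (ha : ‖a‖ < 1) (ξ : ℂ) : Bl a ha ξ = ξ + conj a * conj ξ := f1_apply a ξ

/-- `B` is symmetric -/
theorem Bl_symm (a : ℂ) (ha : ‖a‖ < 1) (ξ z : ℂ) :
    inner ℝ (Bl a ha ξ) z = inner ℝ ξ (Bl a ha z) := by
  rw [Bl_apply, Bl_apply, P.inner_eq, P.inner_eq]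
  simp only [Complex.add_re, Complex.add_im, Complex.mul_re, Complex.mul_im, Complex.conj_re,
    Complex.conj_im]
  ring

theorem Bl_symm' (a : ℂ) (ha : ‖a‖ < 1) (ξ z : ℂ) :
    inner ℝ ((Bl a ha).symm ξ) z = inner ℝ ξ ((Bl a ha).symm z) := by
  have h := Bl_symm a ha ((Bl a ha).symm ξ) ((Bl a ha).symm z)
  rw [ContinuousLinearEquiv.apply_symm_apply, ContinuousLinearEquiv.apply_symm_apply] at h
  exact h.symm

/-- change of variables -/
theorem cov (B : ℂ ≃L[ℝ] ℂ) : ∃ c : ℝ, 0 < c ∧ (∀ g : ℂ → ℂ, ∫ x, g (B x) = c • ∫ x, g x) ∧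
    ∀ g : ℂ → ℝ≥0∞, ∫⁻ x, g (B x) = ENNReal.ofReal c * ∫⁻ x, g x := by
  set L : ℂ →ₗ[ℝ] ℂ := (B : ℂ →L[ℝ] ℂ).toLinearMap with hL
  have hdet : LinearMap.det L ≠ 0 := by
    have h1 : L = (B.toLinearEquiv : ℂ →ₗ[ℝ] ℂ) := rfl
    rw [h1]
    exact (LinearEquiv.isUnit_det' B.toLinearEquiv).ne_zero
  have hmap := Measure.map_linearMap_addHaar_eq_smul_addHaar (volume : Measure ℂ) hdet
  have hcoe : (L : ℂ → ℂ) = B := rfl
  rw [hcoe] at hmap
  have hemb : MeasurableEmbedding (B : ℂ → ℂ) := B.toHomeomorph.measurableEmbedding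
  refine ⟨|(LinearMap.det L)⁻¹|, abs_pos.2 (inv_ne_zero hdet), fun g => ?_, fun g => ?_⟩
  · rw [← hemb.integral_map, hmap, integral_smul_measure, ENNReal.toReal_ofReal (abs_nonneg _)]
  · rw [← hemb.lintegral_map, hmap, lintegral_smul_measure, smul_eq_mul]

/-- the symbol `(u + a) / (1 + conj a u)` -/
def sy (a ξ : ℂ) : ℂ := mult 1 (ξ + conj a * conj ξ)

theorem lin (a : ℂ) (ha : ‖a‖ < 1) (f : ℂ → ℂ) (z : ℂ) :
    Mf (sy a) (𝓕 f) z = Tn 1 (fun w => f (Bl a ha w)) ((Bl a ha).symm z) := by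
  set B := Bl a ha with hB
  obtain ⟨c, hc, hint, -⟩ := cov B
  have hF : ∀ η, 𝓕 (fun w => f (B w)) η = c • 𝓕 f (B.symm η) := by
    intro η
    rw [Real.fourier_eq, Real.fourier_eq]
    have h1 := hint (fun v => 𝐞 (-(inner ℝ (B.symm v) η)) • f v)
    simp only [ContinuousLinearEquiv.symm_apply_apply] at h1
    rw [h1]
    congr 1
    refine integral_congr_ae (Eventually.of_forall fun v => ?_)
    simp only
    rw [hB, Bl_symm']
  rw [Tn_eq]
  unfold Mf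
  have h2 := hint (fun η => 𝐞 (inner ℝ (B.symm η) z) • (mult 1 η * 𝓕 f (B.symm η)))
  simp only [ContinuousLinearEquiv.symm_apply_apply] at h2
  have h3 : ∀ ξ, sy a ξ = mult 1 (B ξ) := by
    intro ξ
    rw [hB, Bl_apply, sy]
  simp only [h3]
  rw [h2, ← integral_smul]
  refine integral_congr_ae (Eventually.of_forall fun η => ?_)
  simp only
  rw [hF, hB, Bl_symm', Circle.smul_def, Circle.smul_def, Complex.real_smul, Complex.real_smul]
  simp only [smul_eq_mul]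
  ring

/-- the bound for the symbols `sy a` -/
theorem lin_bound {p C : ℝ} (h : TB 1 p C) (a : ℂ) (ha : ‖a‖ < 1) (f : SchwartzMap ℂ ℂ) :
    ∫⁻ z, ‖Mf (sy a) (𝓕 (f : ℂ → ℂ)) z‖ₑ ^ p ≤ ENNReal.ofReal (C ^ p) * ∫⁻ z, ‖f z‖ₑ ^ p := by
  set B := Bl a ha with hB
  obtain ⟨c, hc, -, hlint⟩ := cov B
  obtain ⟨c', hc', -, hlint'⟩ := cov B.symm
  set fB : SchwartzMap ℂ ℂ := SchwartzMap.compCLMOfContinuousLinearEquiv ℂ B f with hfB
  have hfB' : ∀ w, fB w = f (B w) := fun w => rfl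
  have h1 := h fB
  have h2 : ∫⁻ w, ‖fB w‖ₑ ^ p = ENNReal.ofReal c * ∫⁻ z, ‖f z‖ₑ ^ p := by
    simp only [hfB']
    exact hlint (fun z => ‖f z‖ₑ ^ p)
  have hcc : ENNReal.ofReal c' * ENNReal.ofReal c = 1 := by
    have h3 := hlint' (fun w => (Metric.ball (0 : ℂ) 1).indicator 1 (B w))
    have h4 := hlint ((Metric.ball (0 : ℂ) 1).indicator 1)
    simp only [ContinuousLinearEquiv.apply_symm_apply] at h3
    rw [h4, ← mul_assoc, lintegral_indicator_one measurableSet_ball] at h3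
    have h5 : volume (Metric.ball (0 : ℂ) 1) ≠ 0 := (Metric.measure_ball_pos _ _ one_pos).ne'
    have h6 : volume (Metric.ball (0 : ℂ) 1) ≠ ∞ := measure_ball_lt_top.ne
    have h7 : 1 * volume (Metric.ball (0 : ℂ) 1) =
        ENNReal.ofReal c' * ENNReal.ofReal c * volume (Metric.ball (0 : ℂ) 1) := by
      rw [one_mul]; exact h3
    exact ((ENNReal.mul_left_inj h5 h6).1 h7).symm
  calc ∫⁻ z, ‖Mf (sy a) (𝓕 (f : ℂ → ℂ)) z‖ₑ ^ p = ∫⁻ z, ‖Tn 1 fB (B.symm z)‖ₑ ^ p := by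
        refine lintegral_congr fun z => ?_
        rw [lin a ha]
        rfl
    _ = ENNReal.ofReal c' * ∫⁻ y, ‖Tn 1 fB y‖ₑ ^ p := hlint' (fun y => ‖Tn 1 fB y‖ₑ ^ p)
    _ ≤ ENNReal.ofReal c' * (ENNReal.ofReal (C ^ p) * (ENNReal.ofReal c * ∫⁻ z, ‖f z‖ₑ ^ p)) := by
        rw [← h2]
        gcongr
    _ = (ENNReal.ofReal c' * ENNReal.ofReal c) * (ENNReal.ofReal (C ^ p) * ∫⁻ z, ‖f z‖ₑ ^ p) := by
        ring
    _ = _ := by rw [hcc, one_mul]

end Pool.Agent.Helper4.AP
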