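import Pool.Agent.Helper4.AP.Lim

/-!
# Powers of the Beurling-Ahlfors transform: explicit constants (MP_3dd6d4_an)
-/

set_option autoImplicit false

open MeasureTheory Complex FourierTransform Filter Topology
open scoped ENNReal NNReal ComplexConjugate ContDiff

noncomputable section

namespace Pool.Agent.Helper4.AP

open Helper72.BA

theorem log_le_half {t : ℝ} (ht : 1 ≤ t) : Real.log t ≤ (t - t⁻¹) / 2 := by
  rw [← Real.sinh_log (by linarith)]
  exact Real.self_le_sinh_iff.2 (Real.log_nonneg ht)

theorem NN_one : NN 1 = 1 := by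
  unfold NN
  norm_num

theorem NN_le (n : ℕ) (hn : 1 ≤ n) : NN n ≤ Real.exp 1 / 2 * n := by
  rcases Nat.lt_or_ge 1 n with h | h
  · have h1 : (1 : ℝ) < n := by exact_mod_cast h
    have hn0 : (0 : ℝ) < n := by linarith
    have h2 : 0 < (n : ℝ) - 1 := by linarith
    have h3 : 0 < (n : ℝ) + 1 := by linarith
    have e1 : Real.log (((n : ℝ) + 1) / n) ≤ (2 * (n : ℝ) + 1) / (2 * n * (n + 1)) := by
      refine (log_le_half ((one_le_div hn0).2 (by linarith))).trans (le_of_eq ?_)
      rw [inv_div]
      field_simp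
      ring
    have e2 : Real.log ((n : ℝ) / (n - 1)) ≤ (2 * (n : ℝ) - 1) / (2 * n * (n - 1)) := by
      refine (log_le_half ((one_le_div h2).2 (by linarith))).trans (le_of_eq ?_)
      rw [inv_div]
      field_simp
      ring
    have e3 : Real.log (((n : ℝ) + 1) / (n - 1)) =
        Real.log (((n : ℝ) + 1) / n) + Real.log ((n : ℝ) / (n - 1)) := by
      rw [← Real.log_mul (by positivity) (by positivity)]
      congr 1
      field_simp
    have e4 : Real.log (((n : ℝ) + 1) / 2) = Real.log (((n : ℝ) + 1) / n) + Real.log ((n : ℝ) / 2) := by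
      rw [← Real.log_mul (by positivity) (by positivity)]
      congr 1
      field_simp
    have e5 : Real.log (NN n) ≤ Real.log (Real.exp 1 / 2 * n) := by
      have h4 : Real.log (Real.exp 1 / 2 * n) = 1 + Real.log ((n : ℝ) / 2) := by
        rw [show Real.exp 1 / 2 * (n : ℝ) = Real.exp 1 * (n / 2) by ring,
          Real.log_mul (Real.exp_pos 1).ne' (by positivity), Real.log_exp]
      unfold NN
      rw [Real.log_mul (by positivity) (by positivity), Real.log_rpow (by positivity), h4, e3, e4]
      have h5 : (1 + ((n : ℝ) - 1) / 2) * Real.log (((n : ℝ) + 1) / n) ≤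
          (1 + ((n : ℝ) - 1) / 2) * ((2 * (n : ℝ) + 1) / (2 * n * (n + 1))) :=
        mul_le_mul_of_nonneg_left e1 (by linarith)
      have h6 : (((n : ℝ) - 1) / 2) * Real.log ((n : ℝ) / (n - 1)) ≤
          (((n : ℝ) - 1) / 2) * ((2 * (n : ℝ) - 1) / (2 * n * (n - 1))) :=
        mul_le_mul_of_nonneg_left e2 (by linarith)
      have h7 : (1 + ((n : ℝ) - 1) / 2) * ((2 * (n : ℝ) + 1) / (2 * n * (n + 1))) +
          (((n : ℝ) - 1) / 2) * ((2 * (n : ℝ) - 1) / (2 * n * (n - 1))) = 1 := by
        field_simp
        ring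
      linarith
    exact (Real.log_le_log_iff (NN_pos n hn) (by positivity)).1 e5
  · have h1 : n = 1 := le_antisymm h hn
    subst h1
    rw [NN_one]
    have := Real.add_one_le_exp (1 : ℝ)
    push_cast
    linarith

theorem TB_mono {n : ℕ} {p C D : ℝ} (hp : 0 ≤ p) (hC : 0 ≤ C) (hCD : C ≤ D) (h : TB n p C) :
    TB n p D := by
  intro f
  refine (h f).trans ?_
  gcongr

/-- the interpolated bound -/
theorem TB_int (n : ℕ) (hn : 1 ≤ n) {p r : ℝ} (hp : 2 ≤ p) (hpr : p ≤ r) (hr : 2 < r) :
    TB n p ((NN n * (r - 1)) ^ ((1 - 2 / p) / (1 - 2 / r))) := by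
  have h1 : max (r - 1) (1 / (r - 1)) = r - 1 := by
    refine max_eq_left ?_
    have h2 : 1 ≤ r - 1 := by linarith
    exact (div_le_one (by linarith)).2 h2 |>.trans h2
  have h := TB_all n hn r (by linarith)
  rw [h1] at h
  have hN := NN_pos n hn
  have hr1 : 0 < r - 1 := by linarith
  exact TB_interp hr (by positivity) h hp hpr

/-- the uniform bound -/
theorem TB_unif (n : ℕ) (hn : 1 ≤ n) {p : ℝ} (hp : 2 ≤ p) :
    TB n p (Real.exp 2 / 2 * (n : ℝ) ^ (1 - 2 / p) * (p - 1 + 2 * Real.log n)) := by
  have hp0 : 0 < p := by linarith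
  have hexp1 := Real.add_one_le_exp (1 : ℝ)
  have hexp2 := Real.add_one_le_exp (2 : ℝ)
  rcases Nat.lt_or_ge 1 n with h | h
  · have h1 : (1 : ℝ) < n := by exact_mod_cast h
    have hn0 : (0 : ℝ) < n := by linarith
    have hlog : 0 < Real.log n := Real.log_pos h1
    set r : ℝ := p + 2 * Real.log n with hr
    have hr2 : 2 < r := by linarith
    have hN := NN_pos n hn
    have hb := TB_int n hn hp (show p ≤ r by linarith) hr2
    refine TB_mono hp0.le (by have : 0 < r - 1 := by linarith
                              positivity) ?_ hb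
    have hα0 : 0 ≤ 1 - 2 / p := by
      rw [sub_nonneg, div_le_one hp0]
      exact hp
    have hα1 : 1 - 2 / p ≤ 1 := by
      have : 0 ≤ 2 / p := by positivity
      linarith
    have hr0 : 0 < r := by linarith
    have hβ : 0 < 1 - 2 / r := by
      rw [sub_pos, div_lt_one hr0]
      exact hr2
    set α : ℝ := 1 - 2 / p with hα
    set θ : ℝ := α / (1 - 2 / r) with hθ
    have hθ0 : 0 ≤ θ := div_nonneg hα0 hβ.le
    have hθ1 : θ ≤ 1 := by
      rw [hθ, div_le_one hβ, hα]
      have : 2 / r ≤ 2 / p := by gcongr; linarith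
      linarith
    have hθα : (θ - α) * Real.log n ≤ 1 := by
      have e : θ - α = α * (2 / (r - 2)) := by
        rw [hθ]
        have h3 : r - 2 ≠ 0 := by linarith
        have h4 : 1 - 2 / r = (r - 2) / r := by field_simp
        rw [h4]
        field_simp
        ring
      rw [e]
      have e2 : (2 / (r - 2)) * Real.log n ≤ 1 := by
        rw [div_mul_eq_mul_div, div_le_one (by linarith)]
        linarith
      calc α * (2 / (r - 2)) * Real.log n = α * ((2 / (r - 2)) * Real.log n) := by ring
        _ ≤ 1 * 1 := mul_le_mul hα1 e2 (by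
            have : 0 < r - 2 := by linarith
            positivity) (by norm_num)
        _ = 1 := one_mul 1
    have hbig : 1 ≤ Real.exp 1 / 2 * (r - 1) := by
      have h5 : 1 ≤ Real.exp 1 / 2 := by linarith
      have h6 : 1 ≤ r - 1 := by linarith
      nlinarith
    calc (NN n * (r - 1)) ^ θ ≤ ((Real.exp 1 / 2 * (r - 1)) * n) ^ θ := by
          have h7 : 0 ≤ r - 1 := by linarith
          refine Real.rpow_le_rpow (by positivity) ?_ hθ0
          have := mul_le_mul_of_nonneg_right (NN_le n hn) h7
          linarith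
      _ = (Real.exp 1 / 2 * (r - 1)) ^ θ * ((n : ℝ) ^ α * (n : ℝ) ^ (θ - α)) := by
          rw [Real.mul_rpow (by linarith) hn0.le, ← Real.rpow_add hn0]
          congr 2
          ring
      _ ≤ (Real.exp 1 / 2 * (r - 1)) * ((n : ℝ) ^ α * Real.exp 1) := by
          refine mul_le_mul ?_ ?_ (by positivity) (by linarith)
          · calc (Real.exp 1 / 2 * (r - 1)) ^ θ ≤ (Real.exp 1 / 2 * (r - 1)) ^ (1 : ℝ) :=
                  Real.rpow_le_rpow_of_exponent_le hbig hθ1
              _ = _ := Real.rpow_one _
          · refine mul_le_mul_of_nonneg_left ?_ (by positivity)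
            rw [Real.rpow_def_of_pos hn0]
            exact Real.exp_le_exp.2 (by linarith)
      _ = Real.exp 2 / 2 * (n : ℝ) ^ α * (p - 1 + 2 * Real.log n) := by
          have e3 : Real.exp 2 = Real.exp 1 * Real.exp 1 := by
            rw [← Real.exp_add]
            norm_num
          rw [e3, hr]
          ring
  · have h1 : n = 1 := le_antisymm h hn
    subst h1
    have h2 := TB_one p (by linarith)
    have h3 : max (p - 1) (1 / (p - 1)) = p - 1 := by
      refine max_eq_left ?_
      have h4 : 1 ≤ p - 1 := by linarith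
      exact (div_le_one (by linarith)).2 h4 |>.trans h4
    rw [h3] at h2
    refine TB_mono hp0.le (by linarith) ?_ h2
    rw [Nat.cast_one, Real.one_rpow, Real.log_one, mul_zero, add_zero, mul_one]
    have h5 : 1 ≤ Real.exp 2 / 2 := by linarith
    nlinarith

end Pool.Agent.Helper4.AP
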